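import Pool.Agent.Helper28.WK.StB

/-!
# W2: difference relations of the central component
-/

set_option autoImplicit false

open Pool.Agent.Helper14.CV

namespace Pool.Agent.Helper78.WK

open Pool.Agent.Helper28.WK

private theorem diff_zero {S : Type} [CommRing S] (a : ℕ) (x h : S) :
    ∑ j ∈ Finset.range (a + 2), ((-1 : ℤ) ^ j * ((a + 1).choose j : ℤ)) • (x + j * h) ^ a = 0 := by
  have h1 := congrFun (Polynomial.fwdDiff_iter_eq_zero_of_degree_lt (R := S)
    (P := (Polynomial.C x + Polynomial.C h * Polynomial.X) ^ a) (n := a + 1) (by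
      refine lt_of_le_of_lt (Polynomial.natDegree_pow_le) ?_
      have h2 : (Polynomial.C x + Polynomial.C h * Polynomial.X).natDegree ≤ 1 := by
        compute_degree
      calc a * _ ≤ a * 1 := Nat.mul_le_mul_left a h2
        _ < a + 1 := by omega)) 0
  rw [fwdDiff_iter_eq_sum_shift] at h1
  have h3 := congrArg (fun y => ((-1 : ℤ) ^ (a + 1)) • y) h1
  simp only [Pi.zero_apply, smul_zero, Finset.smul_sum] at h3
  rw [← h3]
  refine Finset.sum_congr (by rfl) fun j hj => ?_
  have hj' : j ≤ a + 1 := by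
    have := Finset.mem_range.1 hj
    omega
  rw [smul_smul]
  congr 1
  · obtain ⟨t, ht⟩ := Nat.exists_eq_add_of_le hj'
    rw [ht, Nat.add_sub_cancel_left, pow_add]
    have : ((-1 : ℤ) ^ t) * ((-1 : ℤ) ^ t) = 1 := by
      rw [← mul_pow]; norm_num
    linear_combination (-(((j + t).choose j : ℤ)) * (-1) ^ j) * this
  · simp only [Polynomial.eval_pow, Polynomial.eval_add, Polynomial.eval_C, Polynomial.eval_mul,
      Polynomial.eval_X, zero_add, nsmul_eq_mul, mul_one]
    ring

theorem hW2 : StW2 := by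
  intro p _ a ν Φ hΦ
  constructor
  · intro h hp
    have key : ∀ j ∈ Finset.range (a + 2),
        EqC ((((-1 : ℤ) ^ j * ((a + 1).choose j : ℤ))) • act 1 (j * h) 0 1 (cp Φ a))
          ((((-1 : ℤ) ^ j * ((a + 1).choose j : ℤ))) •
            pr Φ ((Polynomial.X + (j : Polynomial ℤ) * Polynomial.C h) ^ a)) := by
      intro j _
      have h1 := hΦ.eqv 1 (j * h) 0 1 (by ring) (Dvd.dvd.mul_left hp _) (dvd_zero _) a (by omega)
      obtain ⟨c, hc⟩ := h1
      refine ⟨((-1 : ℤ) ^ j * ((a + 1).choose j : ℤ)) • c, fun u v huv => ?_⟩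
      simp only [Pi.smul_apply]
      rw [hc u v huv, smul_add]
      have h5 : (Polynomial.C (1 : ℤ) * Polynomial.X + Polynomial.C ((j : ℤ) * h)) ^ a *
          (Polynomial.C (0 : ℤ) * Polynomial.X + Polynomial.C 1) ^ (2 * a - a) =
          (Polynomial.X + (j : Polynomial ℤ) * Polynomial.C h) ^ a := by
        simp only [map_mul, Polynomial.C_0, map_one, map_natCast, one_mul, zero_mul, zero_add,
          one_pow, mul_one]
      rw [h5]
    have h2 := EqC.sum _ key
    have h3 : (∑ i ∈ Finset.range (a + 2), (((-1 : ℤ) ^ i * ((a + 1).choose i : ℤ))) •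
        pr Φ ((Polynomial.X + (i : Polynomial ℤ) * Polynomial.C h) ^ a)) = 0 := by
      simp only [← pr_smul, ← pr_sum]
      rw [diff_zero, pr_zero]
    rw [h3] at h2
    convert h2 using 1
    funext u v
    simp only [Nb, Finset.sum_apply, Pi.smul_apply, act]
    refine Finset.sum_congr rfl fun j _ => ?_
    congr 2 <;> ring
  · intro c hp
    have key : ∀ j ∈ Finset.range (a + 2),
        EqC ((((-1 : ℤ) ^ j * ((a + 1).choose j : ℤ))) • act 1 0 (j * c) 1 (cp Φ a))
          ((((-1 : ℤ) ^ j * ((a + 1).choose j : ℤ))) •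
            pr Φ (Polynomial.X ^ a * (1 + (j : Polynomial ℤ) * (Polynomial.C c * Polynomial.X)) ^ a)) := by
      intro j _
      have h1 := hΦ.eqv 1 0 (j * c) 1 (by ring) (dvd_zero _) (Dvd.dvd.mul_left hp _) a (by omega)
      obtain ⟨k, hk⟩ := h1
      refine ⟨((-1 : ℤ) ^ j * ((a + 1).choose j : ℤ)) • k, fun u v huv => ?_⟩
      simp only [Pi.smul_apply]
      rw [hk u v huv, smul_add]
      have h4 : 2 * a - a = a := by omega
      have h5 : (Polynomial.C (1 : ℤ) * Polynomial.X + Polynomial.C 0) ^ a *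
          (Polynomial.C ((j : ℤ) * c) * Polynomial.X + Polynomial.C 1) ^ (2 * a - a) =
          Polynomial.X ^ a * (1 + (j : Polynomial ℤ) * (Polynomial.C c * Polynomial.X)) ^ a := by
        rw [h4]
        simp only [map_mul, Polynomial.C_0, map_one, map_natCast, one_mul, add_zero]
        ring
      rw [h5]
    have h2 := EqC.sum _ key
    have h3 : (∑ i ∈ Finset.range (a + 2), (((-1 : ℤ) ^ i * ((a + 1).choose i : ℤ))) •
        pr Φ (Polynomial.X ^ a * (1 + (i : Polynomial ℤ) * (Polynomial.C c * Polynomial.X)) ^ a)) = 0 := by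
      simp only [← pr_smul, ← pr_sum, ← mul_smul_comm, ← Finset.mul_sum]
      rw [diff_zero, mul_zero, pr_zero]
    rw [h3] at h2
    convert h2 using 1
    funext u v
    simp only [Nc, Finset.sum_apply, Pi.smul_apply, act]
    refine Finset.sum_congr rfl fun j _ => ?_
    congr 2 <;> ring

end Pool.Agent.Helper78.WK
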