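import Pool.Agent.Helper1.WK.M_W3
import Pool.Agent.Helper10.CV.M_N1
import Pool.Agent.Helper10.WK.M_KP4
import Pool.Agent.Helper10.WK.M_La
import Pool.Agent.Helper12.WK.M_Tr
import Pool.Agent.Helper15.WK.M_G5
import Pool.Agent.Helper16.WK.M_Lb2
import Pool.Agent.Helper2.WK.M_Gr
import Pool.Agent.Helper2.WK.M_Pl1
import Pool.Agent.Helper21.WK.M_KN4
import Pool.Agent.Helper21.WK.M_QC
import Pool.Agent.Helper22.WK.M_KN2
import Pool.Agent.Helper22.WK.M_KP6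
import Pool.Agent.Helper28.WK.M_Brg
import Pool.Agent.Helper28.WK.M_Zp
import Pool.Agent.Helper32.WK.M_All
import Pool.Agent.Helper32.WK.M_KMod
import Pool.Agent.Helper32.WK.M_Tr2
import Pool.Agent.Helper36.WK.M_W1
import Pool.Agent.Helper38.CV.M_Far
import Pool.Agent.Helper43.WK.M_KA8
import Pool.Agent.Helper47.WK.M_Map
import Pool.Agent.Helper53.WK.M_KP2
import Pool.Agent.Helper6.WK.M_KE
import Pool.Agent.Helper62.WK.M_KH3
import Pool.Agent.Helper63.WK.M_KA1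
import Pool.Agent.Helper63.WK.M_Pol
import Pool.Agent.Helper66.WK.M_Den
import Pool.Agent.Helper66.WK.M_KP5
import Pool.Agent.Helper67.WK.M_KIN
import Pool.Agent.Helper69.WK.M_KP1
import Pool.Agent.Helper7.WK.M_KN3
import Pool.Agent.Helper78.WK.M_W2
import Pool.Agent.Helper79.WK.M_KH1
import Pool.Agent.Helper80.WK.M_KA3
import Pool.Agent.Helper81.WK.M_KB2
import Pool.Agent.Helper82.WK.M_KB1
import Pool.Agent.Helper82.WK.M_UIp
import Pool.Agent.Helper83.WK.M_KA4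
import Pool.Agent.Helper86.WK.M_Gp
import Pool.Agent.Helper86.WK.M_KA5
import Pool.Agent.Helper90.WK.M_KB3
import Pool.Agent.Helper92.WK.M_KA1b
import Pool.Agent.Helper97.WK.M_W4
import Pool.Agent.Helper99.WK.M_CC
import Pool.Agent.Helper99.WK.M_KH2

/-!
# The central values of the newforms of weight `2A+2 ≥ 4` and level `p^(ν+2)`, from Theorem A for `p`
-/

set_option autoImplicit false

namespace Pool.Agent.Helper78.WK

open Pool.Agent.Helper14.CV Pool.Agent.Helper14.WK Pool.Agent.Helper28.WK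

theorem hGen (p : ℕ) (hp : p.Prime) (hTA : TAp p) (A ν : ℕ) (hA : 1 ≤ A) (hν : 1 ≤ ν)
    (hne : NeZero (p ^ (ν + 2))) (hk : 0 < (2 * A + 2 : ℤ))
    (f : CuspForm (G0 (p ^ (ν + 2))) (2 * A + 2)) (hf : IsNewformK p (ν + 2) f)
    (hε : RootOneK hk f) : LanK hk f (1 / 2) ≠ 0 := by
  have far := Pool.Agent.Helper38.CV.hFar
  have n1 := Pool.Agent.Helper10.CV.hN1
  -- the analytic part
  have ka1 := Pool.Agent.Helper63.WK.hKA1
  have kb := Pool.Agent.Helper92.WK.hKA1b ka1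
  have ke := Pool.Agent.Helper6.WK.hKE ka1
  have ka3 := Pool.Agent.Helper80.WK.hKA3 ke
  have kmod := Pool.Agent.Helper32.WK.hKMod
  have ka4 := Pool.Agent.Helper83.WK.hKA4 ka1 kb ke
  have kp1 := Pool.Agent.Helper69.WK.hKP1
  have kp2 := Pool.Agent.Helper53.WK.hKP2 ka3 kp1
  have kh1 := Pool.Agent.Helper79.WK.hKH1 ka1
  have kh2 := Pool.Agent.Helper99.WK.hKH2 kh1 ke kb
  have kh3 := Pool.Agent.Helper62.WK.hKH3 kh2 kp1
  have ka8 := Pool.Agent.Helper43.WK.hKA8 ka1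
  have kn3 := Pool.Agent.Helper7.WK.hKN3 kh1 kmod n1
  have kn4 := Pool.Agent.Helper21.WK.hKN4 kmod ka8 Pool.Agent.Helper22.WK.hKN2 kn3
  have kp5 := Pool.Agent.Helper66.WK.hKP5 ke kb kp1
  have kp6 := Pool.Agent.Helper22.WK.hKP6 ke kp1
  have kp4 := Pool.Agent.Helper10.WK.hKP4 kp2
  have ka5 := Pool.Agent.Helper86.WK.hKA5 ka1 kb ke
  have kb1 := Pool.Agent.Helper82.WK.hKB1
  have kb2 := Pool.Agent.Helper81.WK.hKB2 ka1 kb ke kb1
  have kb3 := Pool.Agent.Helper90.WK.hKB3 ka1 kb1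
  have kin := Pool.Agent.Helper67.WK.hKIN kb1 kb2 kb3 kp1
  -- the algebraic part
  have uip := Pool.Agent.Helper82.WK.hUIp far
  have la := Pool.Agent.Helper10.WK.hLa
  have lb := Pool.Agent.Helper16.WK.hLb2
  have pol := Pool.Agent.Helper63.WK.hPol
  have gr : Gr := Pool.Agent.Helper2.WK.hGr Pool.Agent.Helper86.WK.hGp
    Pool.Agent.Helper2.WK.hPl1
  have cc := Pool.Agent.Helper99.WK.hCC
  have g5 := Pool.Agent.Helper15.WK.hG5
  have w1 := Pool.Agent.Helper36.WK.hW1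
  have w3 := Pool.Agent.Helper1.WK.hW3
  have w4 := Pool.Agent.Helper97.WK.hW4
  have zp := Pool.Agent.Helper28.WK.hZp la lb uip pol gr cc g5 w1 Pool.Agent.Helper78.WK.hW2 w3 w4
  have map := Pool.Agent.Helper47.WK.hMap
  have qc := Pool.Agent.Helper21.WK.hQC zp map Pool.Agent.Helper66.WK.hDen
  exact hFin ka4 kmod kp1 kp2 kh3 ka8 kn4 kp5 kp6 kp4 ka5 kin Pool.Agent.Helper12.WK.hTr
    Pool.Agent.Helper32.WK.hTr2 Pool.Agent.Helper32.WK.hAll p hp (qc p ⟨hp⟩ hTA) A ν hA hν hne hk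
    f hf hε

end Pool.Agent.Helper78.WK
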