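import Pool.Agent.Helper43.WK.M_KA8
import Pool.Agent.Helper63.WK.M_KA1

/-!
# Check of the definition `RootOneK`: it is the condition `f|W = (-1)^(k/2) f`

For a cusp form `f` of weight `k = 2A + 2` on `Γ₀(N)` the condition `RootOneK hk f` (root number
`+1`) holds if and only if `f(-1/(Nz)) = (-1)^(A+1) N^(A+1) z^(2A+2) f(z)`. The second condition
contains no values of `L` or `Γ`. Weight `2`: `Pool/Agent/Helper10/CV/M_RO.lean`.
-/

set_option autoImplicit false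

namespace Pool.Agent.Helper78.WK.ROK

open Pool.Agent.Helper14.CV (G0)
open Pool.Agent.Helper14.WK
open Complex Filter Topology MeasureTheory Set

/-- the function on the positive half line -/
private noncomputable def ph {N : ℕ} {k : ℤ} (f : CuspForm (G0 N) k) (t : ℝ) : ℂ := fzK f (I * t)

private lemma conv {N : ℕ} [NeZero N] {k : ℤ} (hk : 0 < k) (f : CuspForm (G0 N) k) (s : ℂ) :
    MellinConvergent (ph f) s :=
  ((CuspForm.isStrongFEPair hk f).hasMellin s).1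

private lemma lam_eq {N : ℕ} [NeZero N] {k : ℤ} (hk : 0 < k) (f : CuspForm (G0 N) k) (s : ℂ)
    (hs : 0 < (s + (k - 1) / 2).re) :
    LamK hk f s = (Real.sqrt N : ℂ) ^ s * ((2 * Real.pi : ℝ) : ℂ) ^ (((k : ℂ) - 1) / 2) *
      mellin (ph f) (s + (k - 1) / 2) := by
  have hN : 0 < (N : ℝ) := by
    have := NeZero.pos N
    exact_mod_cast this
  have hG : Complex.Gamma (s + (k - 1) / 2) ≠ 0 := Complex.Gamma_ne_zero_of_re_pos hs
  have h2 : ((2 * Real.pi : ℝ) : ℂ) ≠ 0 := by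
    exact_mod_cast (by positivity : (2 * Real.pi : ℝ) ≠ 0)
  have h1 : ((Real.sqrt N / (2 * Real.pi) : ℝ) : ℂ) ^ s
      = (Real.sqrt N : ℂ) ^ s / ((2 * Real.pi : ℝ) : ℂ) ^ s := by
    rw [Complex.ofReal_div, Complex.div_cpow_ofReal_nonneg (Real.sqrt_nonneg _) (by positivity)]
  have hL : LanK hk f s = mellin (ph f) (s + (k - 1) / 2) *
      (2 / Complex.Gammaℂ (s + (k - 1) / 2)) := by
    unfold LanK ModularForm.L
    rw [CuspForm.Λ_eq_mellin]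
    rfl
  unfold LamK
  rw [hL, h1, Complex.Gammaℂ_def]
  have h3 : (2 * (Real.pi : ℂ)) = ((2 * Real.pi : ℝ) : ℂ) := by push_cast; ring
  rw [h3]
  have h4 : ((2 * Real.pi : ℝ) : ℂ) ^ (-(s + ((k : ℂ) - 1) / 2)) =
      (((2 * Real.pi : ℝ) : ℂ) ^ s * ((2 * Real.pi : ℝ) : ℂ) ^ (((k : ℂ) - 1) / 2))⁻¹ := by
    rw [Complex.cpow_neg, Complex.cpow_add _ _ h2]
  rw [h4]
  have h5 : ((2 * Real.pi : ℝ) : ℂ) ^ s ≠ 0 := by
    rw [Complex.cpow_ne_zero_iff]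
    exact Or.inl h2
  have h6 : ((2 * Real.pi : ℝ) : ℂ) ^ (((k : ℂ) - 1) / 2) ≠ 0 := by
    rw [Complex.cpow_ne_zero_iff]
    exact Or.inl h2
  generalize s + ((k : ℂ) - 1) / 2 = u at hG ⊢
  field_simp

/-- the transformed function -/
private noncomputable def ps {N : ℕ} (A : ℕ) (f : CuspForm (G0 N) (2 * A + 2)) (t : ℝ) : ℂ :=
  ((N : ℂ) ^ (A + 1))⁻¹ • ((t : ℂ) ^ (-(2 * A + 2 : ℂ)) • ph f ((N : ℝ) * t)⁻¹)

private lemma mellin_ps {N : ℕ} [NeZero N] (A : ℕ) (f : CuspForm (G0 N) (2 * A + 2)) (s : ℂ) :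
    mellin (ps A f) s = (N : ℂ) ^ ((A : ℂ) + 1 - s) * mellin (ph f) (2 * A + 2 - s) := by
  have hN : 0 < (N : ℝ) := by
    have := NeZero.pos N
    exact_mod_cast this
  have hN0 : (N : ℂ) ≠ 0 := by exact_mod_cast hN.ne'
  have e1 : mellin (ps A f) s = ((N : ℂ) ^ (A + 1))⁻¹ •
      mellin (fun t : ℝ => (t : ℂ) ^ (-(2 * A + 2 : ℂ)) • ph f ((N : ℝ) * t)⁻¹) s :=
    mellin_const_smul _ _ _
  have e2 : mellin (fun t : ℝ => (t : ℂ) ^ (-(2 * A + 2 : ℂ)) • ph f ((N : ℝ) * t)⁻¹) s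
      = mellin (fun t : ℝ => ph f ((N : ℝ) * t)⁻¹) (s + -(2 * A + 2 : ℂ)) :=
    mellin_cpow_smul (fun t : ℝ => ph f ((N : ℝ) * t)⁻¹) s (-(2 * A + 2 : ℂ))
  have e3 : mellin (fun t : ℝ => ph f ((N : ℝ) * t)⁻¹) (s + -(2 * A + 2 : ℂ))
      = ((N : ℝ) : ℂ) ^ (-(s + -(2 * A + 2 : ℂ))) •
        mellin (fun t : ℝ => ph f t⁻¹) (s + -(2 * A + 2 : ℂ)) :=
    mellin_comp_mul_left (fun t : ℝ => ph f t⁻¹) (s + -(2 * A + 2 : ℂ)) hN
  have e4 : mellin (fun t : ℝ => ph f t⁻¹) (s + -(2 * A + 2 : ℂ)) =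
      mellin (ph f) (-(s + -(2 * A + 2 : ℂ))) := mellin_comp_inv _ _
  rw [e1, e2, e3, e4, smul_eq_mul, smul_eq_mul, ← mul_assoc]
  have e5 : -(s + -(2 * A + 2 : ℂ)) = 2 * A + 2 - s := by ring
  rw [e5]
  congr 1
  have e6 : (2 * A + 2 - s : ℂ) = ((A : ℂ) + 1 - s) + ((A + 1 : ℕ) : ℂ) := by
    push_cast
    ring
  rw [e6, Complex.ofReal_natCast, Complex.cpow_add _ _ hN0, Complex.cpow_natCast]
  field_simp

/-- `f|W = (-1)^(k/2) f` implies the functional equation with sign `+1` in the strip where neither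
Gamma factor has a pole. -/
theorem rootOneK_of_fricke {N : ℕ} [NeZero N] (A : ℕ) (hk : 0 < (2 * A + 2 : ℤ))
    (f : CuspForm (G0 N) (2 * A + 2))
    (hW : ∀ z : ℂ, 0 < z.im → fzK f (-1 / (N * z)) =
      (-1) ^ (A + 1) * (N : ℂ) ^ (A + 1) * z ^ (2 * A + 2) * fzK f z) : RootOneK hk f := by
  intro s hs1 hs2
  have hN : 0 < (N : ℝ) := by
    have := NeZero.pos N
    exact_mod_cast this
  have hN0 : (N : ℂ) ≠ 0 := by exact_mod_cast hN.ne'
  have hsq : (Real.sqrt N : ℂ) ≠ 0 := by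
    exact_mod_cast (Real.sqrt_pos.2 hN).ne'
  have hkc : (((2 * A + 2 : ℤ) : ℂ) - 1) / 2 = (A : ℂ) + 1 / 2 := by
    push_cast
    ring
  have hps : mellin (ps A f) (s + ((A : ℂ) + 1 / 2)) = mellin (ph f) (s + ((A : ℂ) + 1 / 2)) := by
    unfold mellin
    refine setIntegral_congr_fun measurableSet_Ioi ?_
    intro t ht
    have ht' : (0 : ℝ) < t := ht
    have htc : (t : ℂ) ≠ 0 := by exact_mod_cast ht'.ne'
    have h0 := hW (I * t) (by simpa using ht')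
    have h3 : (-1 / (N * (I * t)) : ℂ) = I * (((N : ℝ) * t)⁻¹ : ℝ) := by
      push_cast
      field_simp
      rw [Complex.I_sq]
    have hI : (I * (t : ℂ)) ^ (2 * A + 2) = (-1) ^ (A + 1) * (t : ℂ) ^ (2 * A + 2) := by
      rw [mul_pow, show 2 * A + 2 = 2 * (A + 1) by ring, pow_mul I, Complex.I_sq]
    rw [h3, hI] at h0
    have h2 : (t : ℂ) ^ (-(2 * A + 2 : ℂ)) = ((t : ℂ) ^ (2 * A + 2))⁻¹ := by
      rw [Complex.cpow_neg]
      congr 1
      have := Complex.cpow_natCast (t : ℂ) (2 * A + 2)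
      rw [← this]
      push_cast
      rfl
    have h4 : ps A f t = ph f t := by
      unfold ps ph
      rw [h0, h2, smul_eq_mul, smul_eq_mul]
      have hs1 : ((-1 : ℂ) ^ (A + 1)) * ((-1 : ℂ) ^ (A + 1)) = 1 := by
        rw [← mul_pow]
        norm_num
      have ht2 : (t : ℂ) ^ (2 * A + 2) ≠ 0 := pow_ne_zero _ htc
      have hN2 : (N : ℂ) ^ (A + 1) ≠ 0 := pow_ne_zero _ hN0
      field_simp
      linear_combination (fzK f (I * t)) * hs1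
    show (t : ℂ) ^ (s + ((A : ℂ) + 1 / 2) - 1) • ps A f t =
      (t : ℂ) ^ (s + ((A : ℂ) + 1 / 2) - 1) • ph f t
    rw [h4]
  have hk1 : ((2 * A + 2 : ℤ) : ℝ) = 2 * (A : ℝ) + 2 := by push_cast; ring
  rw [hk1] at hs1 hs2
  rw [mellin_ps] at hps
  rw [lam_eq hk f s (by rw [hkc]; simp; linarith), lam_eq hk f (1 - s) (by rw [hkc]; simp; linarith),
    hkc, ← hps]
  have e1 : (2 * A + 2 - (s + ((A : ℂ) + 1 / 2)) : ℂ) = 1 - s + ((A : ℂ) + 1 / 2) := by ring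
  rw [e1]
  have e2 : (Real.sqrt N : ℂ) ^ (1 - s) =
      (Real.sqrt N : ℂ) ^ s * (N : ℂ) ^ ((A : ℂ) + 1 - (s + ((A : ℂ) + 1 / 2))) := by
    have e3 : (N : ℂ) = (Real.sqrt N : ℂ) * (Real.sqrt N : ℂ) := by
      rw [← Complex.ofReal_mul, Real.mul_self_sqrt hN.le, Complex.ofReal_natCast]
    have e4 : (N : ℂ) ^ ((A : ℂ) + 1 - (s + ((A : ℂ) + 1 / 2))) =
        (Real.sqrt N : ℂ) ^ ((A : ℂ) + 1 - (s + ((A : ℂ) + 1 / 2))) *
          (Real.sqrt N : ℂ) ^ ((A : ℂ) + 1 - (s + ((A : ℂ) + 1 / 2))) := by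
      rw [← Complex.mul_cpow_ofReal_nonneg (Real.sqrt_nonneg _) (Real.sqrt_nonneg _), ← e3]
    rw [e4, ← Complex.cpow_add _ _ hsq, ← Complex.cpow_add _ _ hsq]
    congr 1
    ring
  rw [e2]
  ring

/-- Root number `+1` is the same as `f|W = (-1)^(k/2) f`. -/
theorem rootOneK_iff {N : ℕ} [NeZero N] (A : ℕ) (hk : 0 < (2 * A + 2 : ℤ))
    (f : CuspForm (G0 N) (2 * A + 2)) :
    RootOneK hk f ↔ ∀ z : ℂ, 0 < z.im → fzK f (-1 / (N * z)) =
      (-1) ^ (A + 1) * (N : ℂ) ^ (A + 1) * z ^ (2 * A + 2) * fzK f z :=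
  ⟨fun h => Pool.Agent.Helper43.WK.hKA8 Pool.Agent.Helper63.WK.hKA1 N inferInstance A hk f h,
    rootOneK_of_fricke A hk f⟩

end Pool.Agent.Helper78.WK.ROK
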